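import Mathlib
import Pool.Agent.W979.HS.Count

set_option autoImplicit false

/-!
# Failures of the relation `a_k = a_(k+P)` between digits of numbers which are not Liouville numbers
-/

namespace Pool.Agent.R473.LogRel

open Finset Filter Pool.Agent.W979.HS

/-- equal digits, equal integer parts -/
theorem floor_eq (b : ℕ) (hb : 2 ≤ b) (y z : ℝ) (m : ℕ)
    (h : ∀ j : ℕ, 1 ≤ j → j ≤ m → ⌊(b : ℝ) ^ j * y⌋ % (b : ℤ) = ⌊(b : ℝ) ^ j * z⌋ % (b : ℤ)) :
    ⌊(b : ℝ) ^ m * Int.fract y⌋ = ⌊(b : ℝ) ^ m * Int.fract z⌋ := by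
  induction m with
  | zero => simp
  | succ m ih =>
    have h1 := ih (fun j h1 h2 => h j h1 (by omega))
    have key : ∀ t : ℝ, ⌊(b : ℝ) ^ (m + 1) * Int.fract t⌋ =
        (b : ℤ) * ⌊(b : ℝ) ^ m * Int.fract t⌋ + ⌊(b : ℝ) ^ (m + 1) * t⌋ % (b : ℤ) := by
      intro t
      have e1 : ⌊(b : ℝ) ^ (m + 1) * Int.fract t⌋ / (b : ℤ) = ⌊(b : ℝ) ^ m * Int.fract t⌋ := by
        have hb0 : (b : ℝ) ≠ 0 := by positivity
        have h3 := Int.floor_div_natCast ((b : ℝ) ^ (m + 1) * Int.fract t) b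
        rw [← h3]
        congr 1
        rw [pow_succ]
        field_simp
      have e2 : ⌊(b : ℝ) ^ (m + 1) * Int.fract t⌋ % (b : ℤ) = ⌊(b : ℝ) ^ (m + 1) * t⌋ % (b : ℤ) := by
        have e3 : (b : ℝ) ^ (m + 1) * Int.fract t =
            (b : ℝ) ^ (m + 1) * t - (((b : ℤ) ^ (m + 1) * ⌊t⌋ : ℤ) : ℝ) := by
          unfold Int.fract
          push_cast
          ring
        have e5 : (b : ℤ) ^ (m + 1) * ⌊t⌋ = (b : ℤ) * ((b : ℤ) ^ m * ⌊t⌋) := by ring
        rw [e3, Int.floor_sub_intCast, e5, Int.sub_mul_emod_self_left]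
      have e4 := Int.mul_ediv_add_emod ⌊(b : ℝ) ^ (m + 1) * Int.fract t⌋ (b : ℤ)
      rw [e1, e2] at e4
      exact e4.symm
    rw [key y, key z, h1, h (m + 1) (by omega) le_rfl]

/-- a long stretch without failures gives a good rational approximation -/
theorem approx (b : ℕ) (hb : 2 ≤ b) (x : ℝ) (P K m : ℕ)
    (h : ∀ k : ℕ, K < k → k ≤ K + m → digit b x k = digit b x (k + P)) :
    ∃ p : ℤ, |((b ^ K * (b ^ P - 1) : ℕ) : ℝ) * x - p| * (b : ℝ) ^ m < 1 := by
  set y : ℝ := (b : ℝ) ^ K * x with hy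
  set z : ℝ := (b : ℝ) ^ (K + P) * x with hz
  have hfl := floor_eq b hb y z m (fun j h1 h2 => by
    have h3 := h (K + j) (by omega) (by omega)
    unfold digit at h3
    have e1 : (b : ℝ) ^ j * y = (b : ℝ) ^ (K + j) * x := by rw [hy, pow_add]; ring
    have e2 : (b : ℝ) ^ j * z = (b : ℝ) ^ (K + j + P) * x := by
      rw [hz, pow_add, pow_add, pow_add]; ring
    rw [e1, e2]
    exact h3)
  have h1 := Int.abs_sub_lt_one_of_floor_eq_floor hfl
  refine ⟨⌊z⌋ - ⌊y⌋, ?_⟩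
  have hbm : (0 : ℝ) < (b : ℝ) ^ m := by positivity
  have h1P : 1 ≤ b ^ P := Nat.one_le_pow _ _ (by omega)
  have e3 : ((b ^ K * (b ^ P - 1) : ℕ) : ℝ) * x = z - y := by
    rw [hz, hy]
    push_cast [Nat.cast_sub h1P]
    rw [pow_add]
    ring
  have e4 : ((b ^ K * (b ^ P - 1) : ℕ) : ℝ) * x - ((⌊z⌋ - ⌊y⌋ : ℤ) : ℝ) =
      Int.fract z - Int.fract y := by
    rw [e3]
    unfold Int.fract
    push_cast
    ring
  rw [e4]
  have e5 : (b : ℝ) ^ m * Int.fract y - (b : ℝ) ^ m * Int.fract z =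
      (Int.fract y - Int.fract z) * (b : ℝ) ^ m := by ring
  rw [e5, abs_mul, abs_of_pos hbm] at h1
  rw [abs_sub_comm]
  exact h1

/-- in every window `(K, K + m]`, `m = M₁ (K + P) + D`, there is a failure -/
theorem window (b : ℕ) (hb : 2 ≤ b) (x μ c : ℝ) (hc : 0 < c)
    (hx : ∀ q : ℕ, 1 ≤ q → ∀ p : ℤ, c ≤ (q : ℝ) ^ μ * |q * x - p|) (P : ℕ) (hP : 1 ≤ P) :
    ∃ A B : ℕ, 2 ≤ A ∧ 1 ≤ B ∧ ∀ K : ℕ, ∃ k : ℕ, K < k ∧ k ≤ A * K + B ∧
      digit b x k ≠ digit b x (k + P) := by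
  obtain ⟨M₁, hM₁⟩ := exists_nat_ge (max μ 1)
  have hM1 : μ ≤ M₁ := (le_max_left _ _).trans hM₁
  have hM1' : 1 ≤ M₁ := by
    have : (1 : ℝ) ≤ M₁ := (le_max_right _ _).trans hM₁
    exact_mod_cast this
  have hb1 : (1 : ℝ) < b := by exact_mod_cast (by omega : 1 < b)
  have hb0 : (0 : ℝ) < b := by linarith
  obtain ⟨D, hD⟩ := pow_unbounded_of_one_lt (1 / c) hb1
  have hD' : 1 ≤ c * (b : ℝ) ^ D := by
    rw [div_lt_iff₀ hc] at hD
    linarith
  refine ⟨1 + M₁, M₁ * P + D, by omega, ?_, ?_⟩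
  · have : 1 ≤ M₁ * P := Nat.one_le_iff_ne_zero.2 (by positivity)
    omega
  intro K
  by_contra hcon
  push Not at hcon
  have hm := approx b hb x P K (M₁ * (K + P) + D) (fun k h1 h2 => by
    apply hcon k h1
    have e : (1 + M₁) * K + (M₁ * P + D) = K + (M₁ * (K + P) + D) := by ring
    rw [e]; exact h2)
  obtain ⟨p, hp⟩ := hm
  set q : ℕ := b ^ K * (b ^ P - 1) with hq
  have h2P : 2 ≤ b ^ P := by
    calc 2 ≤ b := hb
      _ ≤ b ^ P := Nat.le_self_pow (by omega) b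
  have hq1 : 1 ≤ q := by
    rw [hq]
    have : 1 ≤ b ^ K := Nat.one_le_pow _ _ (by omega)
    exact Nat.one_le_iff_ne_zero.2 (Nat.mul_ne_zero (by omega) (by omega))
  have hqR : (1 : ℝ) ≤ q := by exact_mod_cast hq1
  have hqle : (q : ℝ) ≤ (b : ℝ) ^ (K + P) := by
    have : q ≤ b ^ (K + P) := by
      rw [hq, pow_add]
      exact Nat.mul_le_mul_left _ (Nat.sub_le _ _)
    exact_mod_cast this
  have h1 := hx q hq1 p
  have h3 : (q : ℝ) ^ μ ≤ ((b : ℝ) ^ (K + P)) ^ M₁ := by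
    calc (q : ℝ) ^ μ ≤ (q : ℝ) ^ (M₁ : ℝ) := Real.rpow_le_rpow_of_exponent_le hqR hM1
      _ = (q : ℝ) ^ M₁ := Real.rpow_natCast _ _
      _ ≤ ((b : ℝ) ^ (K + P)) ^ M₁ := pow_le_pow_left₀ (by linarith) hqle _
  have h4 : c ≤ ((b : ℝ) ^ (K + P)) ^ M₁ * |q * x - p| :=
    h1.trans (mul_le_mul_of_nonneg_right h3 (abs_nonneg _))
  have h5 : c * (b : ℝ) ^ D ≤ |q * x - p| * (b : ℝ) ^ (M₁ * (K + P) + D) := by
    have e : (b : ℝ) ^ (M₁ * (K + P) + D) = ((b : ℝ) ^ (K + P)) ^ M₁ * (b : ℝ) ^ D := by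
      rw [pow_add, ← pow_mul, mul_comm M₁ (K + P)]
    rw [e]
    calc c * (b : ℝ) ^ D ≤ (((b : ℝ) ^ (K + P)) ^ M₁ * |q * x - p|) * (b : ℝ) ^ D :=
          mul_le_mul_of_nonneg_right h4 (by positivity)
      _ = _ := by ring
  linarith

/-- the number of failures is at least of order `log N` -/
theorem log_rel (b : ℕ) (hb : 2 ≤ b) (x μ c : ℝ) (hc : 0 < c)
    (hx : ∀ q : ℕ, 1 ≤ q → ∀ p : ℤ, c ≤ (q : ℝ) ^ μ * |q * x - p|) (P : ℕ) (hP : 1 ≤ P) :
    ∃ c' : ℝ, 0 < c' ∧ ∃ N0 : ℕ, ∀ N : ℕ, N0 ≤ N →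
      c' * Real.log N ≤ (((Icc 1 N).filter (fun k : ℕ =>
        ∑ j ∈ range (P + 1), (if j = 0 then (1 : ℤ) else if j = P then -1 else 0) *
          digit b x (k + j) ≠ 0)).card : ℝ) := by
  obtain ⟨A, B, hA, hB, hw⟩ := window b hb x μ c hc hx P hP
  set F : ℕ → ℕ := fun N => ((Icc 1 N).filter (fun k : ℕ =>
        ∑ j ∈ range (P + 1), (if j = 0 then (1 : ℤ) else if j = P then -1 else 0) *
          digit b x (k + j) ≠ 0)).card with hF
  have hmono : Monotone F := by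
    intro N N' h
    apply card_le_card
    apply filter_subset_filter
    exact Icc_subset_Icc_right h
  have hstep : ∀ K : ℕ, F K + 1 ≤ F (A * K + B) := by
    intro K
    obtain ⟨k, hk1, hk2, hk3⟩ := hw K
    have hsub : insert k ((Icc 1 K).filter (fun k : ℕ =>
        ∑ j ∈ range (P + 1), (if j = 0 then (1 : ℤ) else if j = P then -1 else 0) *
          digit b x (k + j) ≠ 0)) ⊆ (Icc 1 (A * K + B)).filter (fun k : ℕ =>
        ∑ j ∈ range (P + 1), (if j = 0 then (1 : ℤ) else if j = P then -1 else 0) *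
          digit b x (k + j) ≠ 0) := by
      intro l hl
      rw [mem_insert] at hl
      rcases hl with rfl | hl
      · rw [mem_filter, mem_Icc, rel_sum P hP]
        exact ⟨⟨by omega, hk2⟩, sub_ne_zero.2 hk3⟩
      · rw [mem_filter, mem_Icc] at hl ⊢
        refine ⟨⟨hl.1.1, ?_⟩, hl.2⟩
        have : K ≤ A * K := Nat.le_mul_of_pos_left K (by omega)
        omega
    have h1 := card_le_card hsub
    rw [card_insert_of_notMem (by
      rw [mem_filter, mem_Icc]
      omega)] at h1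
    exact h1
  have hi : ∀ i : ℕ, i ≤ F (B * (A ^ i - 1)) := by
    intro i
    induction i with
    | zero => exact Nat.zero_le _
    | succ i ih =>
      have h1 := hstep (B * (A ^ i - 1))
      have h2 : A * (B * (A ^ i - 1)) + B ≤ B * (A ^ (i + 1) - 1) := by
        have h3 : 1 ≤ A ^ i := Nat.one_le_pow _ _ (by omega)
        obtain ⟨t, ht⟩ := Nat.exists_eq_add_of_le h3
        rw [pow_succ, ht]
        have e1 : 1 + t - 1 = t := by omega
        have e2 : (1 + t) * A - 1 = A - 1 + t * A := by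
          have : (1 + t) * A = A + t * A := by ring
          omega
        rw [e1, e2]
        have h4 : 1 ≤ A - 1 := by omega
        nlinarith [Nat.mul_le_mul_left B h4]
      exact (Nat.succ_le_succ ih).trans (h1.trans (hmono h2))
  have hA1 : (1 : ℝ) < A := by exact_mod_cast (by omega : 1 < A)
  have hlA : 0 < Real.log A := Real.log_pos hA1
  have hlt : Tendsto (fun N : ℕ => Real.log (N : ℝ)) atTop atTop :=
    Real.tendsto_log_atTop.comp tendsto_natCast_atTop_atTop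
  obtain ⟨N1, hN1⟩ := (tendsto_atTop.1 hlt
    (2 * (Real.log (2 * B) + Real.log A))).exists_forall_of_atTop
  refine ⟨1 / (2 * Real.log A), by positivity, max N1 B, fun N hN => ?_⟩
  have hNB : B ≤ N := (le_max_right _ _).trans hN
  have hlog := hN1 N ((le_max_left _ _).trans hN)
  set n' : ℕ := N / B with hn'
  have hn'1 : 1 ≤ n' := Nat.div_pos hNB (by omega)
  set i : ℕ := Nat.log A n' with hidef
  have h1 : A ^ i ≤ n' := Nat.pow_log_le_self A (by omega)
  have h2 : B * (A ^ i - 1) ≤ N := by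
    calc B * (A ^ i - 1) ≤ B * n' := Nat.mul_le_mul_left _ ((Nat.sub_le _ _).trans h1)
      _ ≤ N := Nat.mul_div_le N B
  have h3 : i ≤ F N := (hi i).trans (hmono h2)
  have h4 : n' < A ^ (i + 1) := Nat.lt_pow_succ_log_self (by omega) n'
  have h5 : N < B * (n' + 1) := by
    have := Nat.lt_mul_div_succ N (by omega : 0 < B)
    exact this
  have h6 : (N : ℝ) ≤ 2 * B * (A : ℝ) ^ (i + 1) := by
    have h7 : N ≤ 2 * B * A ^ (i + 1) := by
      have : n' + 1 ≤ 2 * A ^ (i + 1) := by omega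
      calc N ≤ B * (n' + 1) := h5.le
        _ ≤ B * (2 * A ^ (i + 1)) := Nat.mul_le_mul_left _ this
        _ = 2 * B * A ^ (i + 1) := by ring
    exact_mod_cast h7
  have hN0 : (0 : ℝ) < N := by
    have : 1 ≤ N := le_trans hB hNB
    exact_mod_cast this
  have hB0 : (0 : ℝ) < B := by exact_mod_cast hB
  have h8 : Real.log N ≤ Real.log (2 * B) + (i + 1) * Real.log A := by
    have h9 := Real.log_le_log hN0 h6
    rw [Real.log_mul (by positivity) (by positivity), Real.log_pow] at h9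
    push_cast at h9
    exact h9
  have h10 : Real.log N / 2 ≤ i * Real.log A := by nlinarith
  have h11 : 1 / (2 * Real.log A) * Real.log N ≤ i := by
    rw [one_div, inv_mul_le_iff₀ (by positivity)]
    linarith
  exact h11.trans (by exact_mod_cast h3)

end Pool.Agent.R473.LogRel
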